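import Pool.Agent.X247.Adm.Alg

/-!
# Deterministic construction of sets forcing small admissible subsets

A polynomial-time algorithm that outputs, for every `n ≥ 2`, a set `S ⊆ [2 n, 4 n)` with at most
`C n ^ (2/3)` elements such that every `A ⊆ [n, 2 n)` that is admissible with respect to `S` has at
most `C n ^ (2/3)` elements. The set consists of the numbers `2 n + u` such that the digits of `u`,
in a number system of base `m` (about `n ^ (1/3)`) with digits up to `2 m - 2`, are on the paraboloid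
`z = x ^ 2 + y ^ 2` modulo a prime `p` between `2 m` and `4 m`.
-/

namespace Pool.Agent.Results.MP_d065a3_lc.ExplicitSumSets

open Pool.Agent.NPC Pool.Agent.NPC.X247Adm

theorem result : ∃ S : ℕ → List ℕ,
    PolyTime (fun x : List Bool => bits (S x.length)) ∧
    ∃ C : ℝ, ∀ n : ℕ, 2 ≤ n →
      (S n).Nodup ∧ (∀ s ∈ S n, 2 * n ≤ s ∧ s < 4 * n) ∧
      ((S n).length : ℝ) ≤
        C * (n : ℝ) ^ (2 / 3 : ℝ) * min 1 (Real.log n ^ (2 / 3 : ℝ)) ∧
      ∀ A : Finset ℕ, (∀ a ∈ A, n ≤ a ∧ a < 2 * n) →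
        (∀ a ∈ A, ∀ b ∈ A, a ≠ b → a + b ∉ S n) →
          (A.card : ℝ) ≤ C * (n : ℝ) ^ (2 / 3 : ℝ) * min 1 (Real.log n ^ (2 / 3 : ℝ)) := by
  refine ⟨sList, polyTime_sList, 256, fun n hn => ?_⟩
  obtain ⟨h1, h2, h3, h4⟩ := main hn
  have hl := log_ge hn
  have h0 : (0 : ℝ) ≤ (n : ℝ) ^ (2 / 3 : ℝ) := by positivity
  have hmin : (1 / 2 : ℝ) ≤ min 1 (Real.log n ^ (2 / 3 : ℝ)) := by
    rw [le_min_iff]
    constructor
    · norm_num
    · linarith
  have key : 128 * (n : ℝ) ^ (2 / 3 : ℝ) ≤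
      256 * (n : ℝ) ^ (2 / 3 : ℝ) * min 1 (Real.log n ^ (2 / 3 : ℝ)) := by
    nlinarith
  exact ⟨h1, h2, h3.trans key, fun A hA hadm => (h4 A hA hadm).trans key⟩

end Pool.Agent.Results.MP_d065a3_lc.ExplicitSumSets
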